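import Pool.Agent.Lib.MP_b4a71d_al.Final

/-!
# Distributive varieties of Lie algebras: the lattice of subvarieties is decided in degree six

`LieAlg F` : Lie algebras over `F`; `IsVariety`, `IsDistributive`, `degPart` are in Defs.lean,
`nilp F c` (the nilpotent Lie algebras of class at most `c`) in Strong.lean.
-/

set_option autoImplicit false

namespace Pool.Agent.Results.MP_b4a71d_al.DegreeSix

open Pool.Agent.Lib.MP_b4a71d_al

universe u

/-- Let `F` be a field of characteristic zero.
(1) A variety of Lie algebras over `F` has a distributive lattice of subvarieties if and only if
its nilpotent algebras of class at most six have.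
(2) If `V` is distributive then so is the variety defined by the identities of `V` of degree at
most six.
(3) A distributive variety which is maximal among the distributive varieties has a basis of
identities of degree at most six.
(4) For every `N` there is a distributive variety which has no basis of identities of degree at
most `N`.
(5) The variety of nilpotent algebras of class at most five is distributive, that of class at
most six is not. -/
theorem result (F : Type u) [Field F] [CharZero F] :
    (∀ V : Set (LieAlg F), IsVariety F V →
      (IsDistributive F V ↔ IsDistributive F (V ∩ nilp F 6))) ∧
    (∀ V : Set (LieAlg F), IsVariety F V → IsDistributive F V →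
      IsDistributive F (degPart F 6 V)) ∧
    (∀ V : Set (LieAlg F), IsVariety F V → IsDistributive F V →
      (∀ W : Set (LieAlg F), IsVariety F W → IsDistributive F W → V ⊆ W → W = V) →
      V = degPart F 6 V) ∧
    (∀ N : ℕ, ∃ V : Set (LieAlg F), IsVariety F V ∧ IsDistributive F V ∧ V ≠ degPart F N V) ∧
    IsDistributive F (nilp F 5) ∧ ¬ IsDistributive F (nilp F 6) :=
  ⟨(strong_of_core (core F)).1, (strong_of_core (core F)).2.1,
    fun _ hV h hmax => maximal_degPart hV h hmax, (strong_of_core (core F)).2.2,
    distributive_nilp_five, not_distributive_nilp_six⟩

end Pool.Agent.Results.MP_b4a71d_al.DegreeSix
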